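import Pool.Agent.NH40.CJ.Tr

/-!
# Conjugacy of the ergodic elements of Aut(X, mu) does not Borel reduce to conjugacy in a full group

Let `T₀` be an ergodic automorphism of a standard atomless probability space `(X, μ)`. There is no Borel map
`f` from the set of the ergodic elements of `Aut(X, μ)` to the full group `[T₀]` such that `S`, `S'` are
conjugate in `Aut(X, μ)` if and only if `f S`, `f S'` are conjugate in `[T₀]`. This answers the second question
(and contains the first one).

Outline. Let `I` be an uncountable set and `a : I → T` an independent family in the circle. For an injective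
sequence `x` in `I` the rotation `R_x` of the torus `T^ℕ` by `a ∘ x` is ergodic, and `R_x`, `R_y` are
conjugate if and only if `x` and `y` have the same range. Let `S` be the space of the injective sequences in
`I` with the product of the discrete topologies: completely metrizable, but not separable. Comeagre many
pairs `(x, y)` have the same range, but all classes are meagre. If there were a Borel map `f` from `S` to
`G = [T₀]` such that `x`, `y` have the same range if and only if `f x`, `f y` are conjugate, then, as the
metric of `G` is two sided invariant, every nonempty open set would contain a smaller one such that for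
comeagre many pairs `(x, y)` in it `f x` and `f y` are conjugate by an element at distance at most `ε` of `1`.
A decreasing sequence of such sets and the completeness of `G` give an element `y₀` of `G` that is conjugate
to `f x` for a nonmeagre set of the `x`, so some class would be nonmeagre.
-/

set_option autoImplicit false
set_option linter.unusedSectionVars false

open MeasureTheory Filter Topology Set

namespace Pool.Agent.Results.MP_1b52a3_lc.ErgodicElements

open Pool.Agent.Helper212.ConjBorel
open Pool.Agent.Results.MP_1b52a3_lc.NoBorelReduction (PreAut Aut mk_eq_mk_iff)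
open Pool.Agent.NH40.CJ

variable {X : Type*} [MeasurableSpace X]

/-- The element `S` of `Aut(X, μ)` is ergodic: some (equivalently every) representative is ergodic. -/
def IsErg {μ : Measure X} (S : Aut μ) : Prop :=
  ∃ T : PreAut μ, (QuotientGroup.mk T : Aut μ) = S ∧ Ergodic (T.1 : X → X) μ

/-- Sanity check: the class of `T` is ergodic if and only if `T` is ergodic. -/
theorem isErg_mk_iff {μ : Measure X} (T : PreAut μ) :
    IsErg (QuotientGroup.mk T : Aut μ) ↔ Ergodic (T.1 : X → X) μ := by
  constructor
  · rintro ⟨T', h1, h2⟩
    rw [mk_eq_mk_iff] at h1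
    refine ⟨T.2.1, ⟨fun s hs hinv => ?_⟩⟩
    refine h2.quasiErgodic.aeconst_set₀ hs.nullMeasurableSet ?_
    have h3 : ∀ᵐ x ∂μ, (x ∈ (T'.1 : X → X) ⁻¹' s ↔ x ∈ s) := by
      filter_upwards [h1] with x hx
      show T'.1 x ∈ s ↔ x ∈ s
      rw [hx]
      exact (Set.ext_iff.1 hinv x)
    filter_upwards [h3] with x hx using propext hx
  · exact fun h => ⟨T, rfl, h⟩

/-- The set of the ergodic elements of `Aut(X, μ)` with the subspace topology of the weak topology. -/
abbrev ErgAut (μ : Measure X) : Type _ := {S : Aut μ // IsErg S}

/-- **Main theorem.** Let `T₀` be an ergodic automorphism of a standard atomless probability space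
`(X, μ)`. There is no Borel map `f` from the set of the ergodic elements of `Aut(X, μ)` to the full group
`[T₀]` such that `S`, `S'` are conjugate in `Aut(X, μ)` if and only if `f S`, `f S'` are conjugate in
`[T₀]`. -/
theorem result {X : Type*} [MeasurableSpace X] [StandardBorelSpace X] {μ : Measure X}
    [IsProbabilityMeasure μ] [NullSingletonClass μ] {T₀ : X ≃ᵐ X} (h : Ergodic T₀ μ) :
    ¬ ∃ f : ErgAut μ → FullGroup h, Measurable[borel (ErgAut μ), borel (FullGroup h)] f ∧
      ∀ S S' : ErgAut μ,
        (∃ U : Aut μ, (S' : Aut μ) = U * S * U⁻¹) ↔ ∃ V : FullGroup h, f S' = V * f S * V⁻¹ := by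
  rintro ⟨f, hf, hred⟩
  obtain ⟨I, a, ha⟩ := t_IND
  have := ha.unc
  obtain ⟨e, he⟩ := Tr.exists_torus μ
  let _ : TopologicalSpace I := ⊥
  have : DiscreteTopology I := ⟨rfl⟩
  have hcont : Continuous fun x : Sq.SS I => (a ∘ x.1 : TT) := by
    refine continuous_pi fun n => ?_
    exact (continuous_of_discreteTopology (f := a)).comp (Sq.cont_coord n)
  have herg : ∀ x : Sq.SS I, IsErg (QuotientGroup.mk (Tr.RR e he (a ∘ x.1)) : Aut μ) := fun x =>
    ⟨_, rfl, Tr.ergodic_RR e he (t_ERG.2.2.2.1 ha x.1 x.2)⟩
  have h1 : Continuous fun x : Sq.SS I =>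
      (⟨QuotientGroup.mk (Tr.RR e he (a ∘ x.1)), herg x⟩ : ErgAut μ) :=
    Continuous.subtype_mk (continuous_quotient_mk'.comp ((Tr.continuous_RR e he).comp hcont)) _
  have hm : Measurable[borel (Sq.SS I), borel (FullGroup h)] fun x : Sq.SS I =>
      f ⟨QuotientGroup.mk (Tr.RR e he (a ∘ x.1)), herg x⟩ := by
    let _ : MeasurableSpace (Sq.SS I) := borel _
    have : BorelSpace (Sq.SS I) := ⟨rfl⟩
    let _ : MeasurableSpace (ErgAut μ) := borel _
    have : BorelSpace (ErgAut μ) := ⟨rfl⟩
    exact hf.comp h1.measurable
  have := Sq.nonempty (I := I)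
  refine Abs.main (X := Sq.SS I) (E := fun x y => range x.1 = range y.1) Sq.base
    Sq.residual_range Sq.meagre_class (Tr.tsi_fullGroup h) _ hm ?_ ?_
  · intro x y hxy
    exact (hred _ _).1 (Tr.conj_of_range e he a x.2 y.2 hxy)
  · intro x y hxy
    exact Tr.range_of_conj e he ha ((hred _ _).2 hxy)

end Pool.Agent.Results.MP_1b52a3_lc.ErgodicElements
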